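import Mathlib

namespace Pool.Agent.Results.MP_626f3c_co.No

open Finset

variable {F : Type} [Field F] {X Y Z : Type}

/-- A slice rank decomposition of an order-3 tensor, of length `a + b + c`. -/
structure Dec (T : X → Y → Z → F) (k : ℕ) where
  a : ℕ
  b : ℕ
  c : ℕ
  len : a + b + c = k
  u₁ : Fin a → X → F
  v₁ : Fin a → Y → Z → F
  u₂ : Fin b → Y → F
  v₂ : Fin b → X → Z → F
  u₃ : Fin c → Z → F
  v₃ : Fin c → X → Y → F
  eq : ∀ x y z, T x y z =
    ∑ i, u₁ i x * v₁ i y z + ∑ i, u₂ i y * v₂ i x z + ∑ i, u₃ i z * v₃ i x y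

theorem pivot [Fintype X] {s : ℕ} (u : Fin s → X → F) (α : X → ℤ) : ∃ C : Finset X, C.card ≤ s ∧
    ∀ p, p ∉ C → ∃ w : X → F, (∀ i, ∑ x, u i x * w x = 0) ∧ w p = 1 ∧ ∀ q, α p < α q → w q = 0 := by
  classical
  let L : (X → F) →ₗ[F] (Fin s → F) := Matrix.mulVecLin (Matrix.of u)
  let P : Finset X := univ.filter fun p =>
    ∃ w : X → F, (∀ i, ∑ x, u i x * w x = 0) ∧ w p = 1 ∧ ∀ q, α p < α q → w q = 0
  refine ⟨Pᶜ, ?_, fun p hp => by simpa [P] using hp⟩
  have h1 := L.finrank_range_add_finrank_ker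
  have h2 : Module.finrank F L.range ≤ s := by simpa using L.range.finrank_le
  have h3 : Module.finrank F L.ker ≤ P.card := by
    have := LinearMap.finrank_le_finrank_of_injective
      (f := (LinearMap.funLeft F F (Subtype.val : P → X)).comp L.ker.subtype) (by
        rw [injective_iff_map_eq_zero]
        rintro ⟨w, hw⟩ h
        by_contra ne
        obtain ⟨p, hp, hm⟩ := exists_max_image (univ.filter fun x => w x ≠ 0) α (by
          by_contra q
          exact ne (Subtype.ext (funext fun x => by_contra fun g =>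
            q ⟨x, mem_filter.mpr ⟨mem_univ _, g⟩⟩)))
        have h0 := (mem_filter.mp hp).2
        refine h0 (congrFun h ⟨p, mem_filter.mpr ⟨mem_univ _, fun x => w x / w p, fun i => ?_,
          div_self h0, fun q hq => ?_⟩⟩)
        · have : ∑ x, u i x * w x = 0 := congrFun hw i
          simp only [← mul_div_assoc, ← sum_div, this, zero_div]
        · by_contra e
          exact hq.not_ge (hm q (mem_filter.mpr ⟨mem_univ _, fun z => e (by simp [z])⟩)))
    simpa using this
  rw [card_compl]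
  simp only [Module.finrank_fintype_fun_eq_card] at h1
  omega

theorem zero [Fintype X] [Fintype Y] [Fintype Z] {T : X → Y → Z → F} {k : ℕ} (D : Dec T k)
    (p : X → F) (q : Y → F) (r : Z → F) (h1 : ∀ i, ∑ x, D.u₁ i x * p x = 0)
    (h2 : ∀ i, ∑ x, D.u₂ i x * q x = 0) (h3 : ∀ i, ∑ x, D.u₃ i x * r x = 0) :
    ∑ x, ∑ y, ∑ z, T x y z * (p x * q y * r z) = 0 := by
  simp only [D.eq, add_mul, sum_add_distrib, sum_mul]
  have a1 : ∑ x, ∑ y, ∑ z, ∑ i, D.u₁ i x * D.v₁ i y z * (p x * q y * r z) =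
      ∑ y, ∑ z, ∑ i, (∑ x, D.u₁ i x * p x) * (D.v₁ i y z * q y * r z) := by
    rw [sum_comm]
    refine sum_congr rfl fun y _ => ?_
    rw [sum_comm]
    refine sum_congr rfl fun z _ => ?_
    rw [sum_comm]
    exact sum_congr rfl fun i _ => by rw [sum_mul]; exact sum_congr rfl fun _ _ => by ring
  have a2 : ∑ x, ∑ y, ∑ z, ∑ i, D.u₂ i y * D.v₂ i x z * (p x * q y * r z) =
      ∑ x, ∑ z, ∑ i, (∑ y, D.u₂ i y * q y) * (D.v₂ i x z * p x * r z) := by
    refine sum_congr rfl fun x _ => ?_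
    rw [sum_comm]
    refine sum_congr rfl fun z _ => ?_
    rw [sum_comm]
    exact sum_congr rfl fun i _ => by rw [sum_mul]; exact sum_congr rfl fun _ _ => by ring
  have a3 : ∑ x, ∑ y, ∑ z, ∑ i, D.u₃ i z * D.v₃ i x y * (p x * q y * r z) =
      ∑ x, ∑ y, ∑ i, (∑ z, D.u₃ i z * r z) * (D.v₃ i x y * p x * q y) := by
    refine sum_congr rfl fun x _ => sum_congr rfl fun y _ => ?_
    rw [sum_comm]
    exact sum_congr rfl fun i _ => by rw [sum_mul]; exact sum_congr rfl fun _ _ => by ring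
  simp [a1, a2, a3, h1, h2, h3]

theorem cover [DecidableEq X] [DecidableEq Y] [DecidableEq Z] (T : X → Y → Z → F) (A : Finset X)
    (B : Finset Y) (C : Finset Z) (h : ∀ x y z, x ∉ A → y ∉ B → z ∉ C → T x y z = 0) :
    ∃ D : Dec T (A.card + B.card + C.card), ∀ z ∈ C, ∃ i, D.u₃ i = Pi.single z 1 := by
  have key : ∀ {W : Type} [DecidableEq W] (S : Finset W) (w : W) (f : W → F),
      ∑ i, (Pi.single (S.equivFin.symm i : W) 1 : W → F) w * f (S.equivFin.symm i) =
        if w ∈ S then f w else 0 := by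
    intro W _ S w f
    rw [S.equivFin.symm.sum_comp fun c => (Pi.single (c : W) 1 : W → F) w * f c,
      sum_coe_sort S fun c => (Pi.single c 1 : W → F) w * f c]
    simp [Pi.single_apply]
  refine ⟨⟨_, _, _, rfl, fun i => Pi.single (A.equivFin.symm i) 1, fun i => T (A.equivFin.symm i),
    fun i => Pi.single (B.equivFin.symm i) 1,
    fun i x z => if x ∈ A then 0 else T x (B.equivFin.symm i) z,
    fun i => Pi.single (C.equivFin.symm i) 1,
    fun i x y => if x ∈ A ∨ y ∈ B then 0 else T x y (C.equivFin.symm i), fun x y z => ?_⟩,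
    fun z hz => ⟨C.equivFin ⟨z, hz⟩, by simp⟩⟩
  rw [key A x fun c => T c y z, key B y fun c => if x ∈ A then 0 else T x c z,
    key C z fun c => if x ∈ A ∨ y ∈ B then 0 else T x y c]
  have := h x y z
  grind

def S {n : ℕ} (x y : Fin n × Bool) (z : Fin n × Fin n) : Prop :=
  z = (x.1, y.1) ∧ (x.2 = false ∧ y.2 = false ∧ x.1 < y.1 ∨ x.2 ≠ y.2 ∧ x.1 = y.1)

instance {n : ℕ} (x y : Fin n × Bool) (z : Fin n × Fin n) : Decidable (S x y z) := by
  unfold S; infer_instance

def T (F : Type) [Field F] (n : ℕ) (x y : Fin n × Bool) (z : Fin n × Fin n) : F :=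
  if S x y z then 1 else 0

theorem count {n : ℕ} (A B : Finset (Fin n × Bool)) (C : Finset (Fin n × Fin n))
    (h : ∀ x y z, S x y z → x ∈ A ∨ y ∈ B ∨ z ∈ C) : 2 * n ≤ A.card + B.card + C.card + 1 := by
  let N : Finset (Fin n) := univ.filter fun v => (v, false) ∉ A ∧ (v, false) ∉ B
  have hA := card_eq_sum_card_fiberwise (s := A) (t := univ) (f := Prod.fst) fun _ _ => mem_univ _
  have hB := card_eq_sum_card_fiberwise (s := B) (t := univ) (f := Prod.fst) fun _ _ => mem_univ _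
  have hC := card_filter_add_card_filter_not (s := C) fun z => z.1 = z.2
  have hD := card_eq_sum_card_fiberwise (s := C.filter fun z => z.1 = z.2) (t := univ)
    (f := Prod.fst) fun _ _ => mem_univ _
  have h1 : N.card ≤ (C.filter fun z => ¬ z.1 = z.2).card + 1 := by
    rcases N.eq_empty_or_nonempty with e | e
    · simp [e]
    rw [← card_erase_add_one (N.min'_mem e)]
    refine Nat.succ_le_succ (card_le_card_of_injOn (fun v => (N.min' e, v)) (fun v hv => ?_)
      fun _ _ _ _ q => congrArg Prod.snd q)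
    obtain ⟨a, b⟩ := mem_erase.mp hv
    have := h (N.min' e, false) (v, false) _
      ⟨rfl, Or.inl ⟨rfl, rfl, (N.min'_le v b).lt_of_ne a.symm⟩⟩
    have c := (mem_filter.mp (N.min'_mem e)).2.1
    have d := (mem_filter.mp b).2.2
    exact mem_filter.mpr ⟨by tauto, a.symm⟩
  have h2 : ∀ v, 2 ≤ (A.filter fun x => x.1 = v).card + (B.filter fun x => x.1 = v).card +
      ((C.filter fun z => z.1 = z.2).filter fun z => z.1 = v).card + if v ∈ N then 1 else 0 := by
    intro v
    have e : ∀ A : Finset (Fin n × Bool), (A.filter fun x => x.1 = v).card =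
        (if (v, false) ∈ A then 1 else 0) + if (v, true) ∈ A then 1 else 0 := by
      intro A
      rw [show (A.filter fun x => x.1 = v) = ({(v, false), (v, true)} : Finset _).filter (· ∈ A) by
        ext ⟨a, _ | _⟩ <;> simp <;> grind, card_filter, sum_pair (by simp)]
    have e' : (v, v) ∈ C → 0 < ((C.filter fun z => z.1 = z.2).filter fun z => z.1 = v).card :=
      fun q => card_pos.mpr ⟨(v, v), by simpa⟩
    have := h (v, false) (v, true) _ ⟨rfl, Or.inr ⟨by simp, rfl⟩⟩
    have := h (v, true) (v, false) _ ⟨rfl, Or.inr ⟨by simp, rfl⟩⟩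
    simp only [e, N, mem_filter, mem_univ, true_and]
    grind
  have h3 := sum_le_sum fun v (_ : v ∈ univ) => h2 v
  simp only [sum_add_distrib, sum_const, card_univ, Fintype.card_fin, smul_eq_mul, sum_ite_mem,
    univ_inter, mul_one] at h3
  omega

theorem lower {n k : ℕ} (D : Dec (T F n) k) : 2 * n ≤ k + 1 := by
  let α : Fin n × Bool → ℤ := fun x => 2 * x.1 + x.2.toNat
  let γ : Fin n × Fin n → ℤ := fun z => -(2 * z.1 + 2 * z.2 + if z.1 = z.2 then 1 else 0)
  have hs : ∀ x y z, S x y z → α x + α y + γ z = 0 := by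
    rintro ⟨a, s⟩ ⟨b, t⟩ _ ⟨rfl, ⟨rfl, rfl, h⟩ | ⟨h, rfl⟩⟩
    · simp [α, γ, h.ne]
    · cases s <;> cases t <;> simp [α, γ] at h ⊢ <;> ring
  have hi : ∀ x y, α x = α y → x = y := by
    rintro ⟨a, _ | _⟩ ⟨b, _ | _⟩ h <;> simp [α, Fin.ext_iff] at h ⊢ <;> omega
  obtain ⟨A, a1, a2⟩ := pivot D.u₁ α
  obtain ⟨B, b1, b2⟩ := pivot D.u₂ α
  obtain ⟨C, c1, c2⟩ := pivot D.u₃ γ
  have := count A B C fun x y z h => by
    by_contra hc
    push Not at hc
    obtain ⟨p, p1, p2, p3⟩ := a2 x hc.1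
    obtain ⟨q, q1, q2, q3⟩ := b2 y hc.2.1
    obtain ⟨r, r1, r2, r3⟩ := c2 z hc.2.2
    have key : ∀ x' y' z', x' ≠ x ∨ y' ≠ y ∨ z' ≠ z → T F n x' y' z' * (p x' * q y' * r z') = 0 := by
      intro x' y' z' ne
      by_contra e
      simp only [T, mul_eq_zero, not_or, ite_eq_right_iff, one_ne_zero, imp_false, not_not] at e
      have e1 := not_lt.mp fun g => e.2.1.1 (p3 x' g)
      have e2 := not_lt.mp fun g => e.2.1.2 (q3 y' g)
      have e3 := not_lt.mp fun g => e.2.2 (r3 z' g)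
      have := hs _ _ _ h
      have := hs _ _ _ e.1
      obtain rfl := hi x' x (by omega)
      obtain rfl := hi y' y (by omega)
      simp [h.1, e.1.1] at ne
    have := zero D p q r p1 q1 r1
    rw [sum_eq_single x (fun _ _ g => sum_eq_zero fun _ _ => sum_eq_zero fun _ _ =>
      key _ _ _ (Or.inl g)) (by simp), sum_eq_single y (fun _ _ g => sum_eq_zero fun _ _ =>
      key _ _ _ (Or.inr (Or.inl g))) (by simp), sum_eq_single z (fun _ _ g =>
      key _ _ _ (Or.inr (Or.inr g))) (by simp)] at this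
    simp [T, h, p2, q2, r2] at this
  have := D.len
  omega

theorem upper {n : ℕ} (u v : Fin n) (h : u < v) :
    ∃ D : Dec (T F n) (2 * n - 1), ∃ i, D.u₃ i = Pi.single (u, v) 1 := by
  let A : Finset (Fin n × Bool) := ({u, v} : Finset _)ᶜ ×ˢ {false}
  have hA : A.card = n - 2 := by
    rw [card_product, card_compl, card_pair h.ne]
    simp
  have hC : ({(u, u), (v, v), (u, v)} : Finset (Fin n × Fin n)).card = 3 :=
    card_eq_three.mpr ⟨_, _, _, by simp [h.ne], by simp [h.ne], by simp [h.ne'], rfl⟩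
  have := cover (T F n) A A {(u, u), (v, v), (u, v)} (by
    rintro ⟨a, s⟩ ⟨b, t⟩ z h1 h2 h3
    refine if_neg ?_
    rintro ⟨rfl, g⟩
    simp [A] at h1 h2 h3 g
    grind)
  rw [show A.card + A.card + _ = 2 * n - 1 by rw [hA, hC]; have := v.2; omega] at this
  obtain ⟨D, hD⟩ := this
  exact ⟨D, hD _ (by simp)⟩

theorem result (F : Type) [Field F] (K : ℕ) : ∃ (k : ℕ) (X Y Z : Type) (_ : Fintype X)
    (_ : Fintype Y) (_ : Fintype Z) (T : X → Y → Z → F), 1 ≤ k ∧
    IsLeast {l | Nonempty (Dec T l)} k ∧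
    ∀ A : Submodule F (Z → F), (∀ (D : Dec T k) i, D.u₃ i ∈ A) → K * k < Module.finrank F A := by
  obtain ⟨m, hm⟩ : ∃ m, m = 4 * K + 1 := ⟨_, rfl⟩
  refine ⟨2 * (m + m) - 1, _, _, _, inferInstance, inferInstance, inferInstance, T F (m + m),
    by omega, ⟨?_, fun l ⟨D⟩ => by have := lower D; omega⟩, fun A hA => ?_⟩
  · obtain ⟨D, -⟩ := upper (F := F) (n := m + m) ⟨0, by omega⟩ ⟨1, by omega⟩ (by simp)
    exact ⟨D⟩
  let f : Fin m × Fin m → Fin (m + m) × Fin (m + m) := fun p => (p.1.castAdd m, p.2.natAdd m)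
  have hf : ∀ p, Pi.single (f p) (1 : F) ∈ A := fun p => by
    obtain ⟨D, i, h⟩ := upper (F := F) (p.1.castAdd m) (p.2.natAdd m) (by
      have := p.1.2
      simp only [Fin.lt_def, Fin.val_castAdd, Fin.val_natAdd]
      omega)
    exact h ▸ hA D i
  have hl : LinearIndependent F fun p => (⟨_, hf p⟩ : A) := LinearIndependent.of_comp A.subtype
    ((Pi.linearIndependent_single_one _ F).comp f fun p q h => by
      simpa [f, Prod.ext_iff, Fin.ext_iff] using h)
  have := hl.fintype_card_le_finrank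
  simp only [Fintype.card_prod, Fintype.card_fin] at this
  have h2 : 2 * (m + m) - 1 ≤ 4 * m := by omega
  nlinarith [Nat.mul_le_mul_left K h2]

end Pool.Agent.Results.MP_626f3c_co.No
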